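import Pool.Agent.H11.Rate3

set_option autoImplicit false

/-! # The rate of very large gaps between reduced residues is the interval sieve extremal value -/

open Finset Filter Topology

namespace Pool.Agent.Results.MP_69be96_nt.LargeGapRate

/-- the mean gap `q / φ(q)` between consecutive integers coprime to `q` -/
noncomputable def meanGap (q : ℕ) : ℝ := (q : ℝ) / q.totient

/-- the proportion, among the `φ(q)` reduced residues `a < q`, of those followed by a gap longer
than `h`: none of `a + 1, …, a + h` is coprime to `q` -/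
noncomputable def gapTail (q h : ℕ) : ℝ :=
  (((range q).filter (fun a => Nat.Coprime a q ∧ ∀ j ∈ Icc 1 h, ¬ Nat.Coprime (a + j) q)).card : ℝ) /
    q.totient

/-- the integers of `(n, n + h]` without a prime factor `≤ w` -/
def rough (w h n : ℕ) : Finset ℕ := (Ioc n (n + h)).filter (fun k => ∀ p ≤ w, p.Prime → ¬ p ∣ k)

/-- the least number of integers without a prime factor `≤ w` in an interval of `h` integers -/
noncomputable def sieveMin (w h : ℕ) : ℕ := sInf (Set.range fun n => (rough w h n).card)

/-- the ratio of `sieveMin w h` to the mean value `h ∏_{p ≤ w} (1 - 1/p)` -/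
noncomputable def mu (w h : ℕ) : ℝ :=
  sieveMin w h / (h * ∏ p ∈ (range (w + 1)).filter Nat.Prime, (1 - 1 / (p : ℝ)))

/-- the gap length `⌊κ m^(1+θ)⌋`, where `m` is the mean gap of the primorial of `z` -/
noncomputable def len (θ κ : ℝ) (z : ℕ) : ℕ := ⌊κ * meanGap (primorial z) ^ (1 + θ)⌋₊

theorem result (θ κ : ℝ) (hθ : 0 < θ) (hκ : 0 < κ) :
    Tendsto (fun z : ℕ => -Real.log (gapTail (primorial z) (len θ κ z)) /
        (len θ κ z / meanGap (primorial z)) -
      mu ⌊meanGap (primorial z) ^ θ⌋₊ (len θ κ z)) atTop (𝓝 0) := by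
  have h := Pool.Agent.H11.Avg.rate θ κ hθ hκ
  have e1 : ∀ w h : ℕ, mu w h = Pool.Agent.H11.Avg.mu h w := by
    intro w h
    have e2 : sieveMin w h = Pool.Agent.H11.Avg.smin h w := by
      unfold sieveMin Pool.Agent.H11.Avg.smin
      congr 2
    unfold mu Pool.Agent.H11.Avg.mu
    rw [e2]
    rfl
  refine h.congr fun z => ?_
  rw [e1]
  rfl

end Pool.Agent.Results.MP_69be96_nt.LargeGapRate
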