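import Pool.Agent.H11.GapLow

set_option autoImplicit false

/-! # The exponential tail of the gaps between reduced residues, and its exact range -/

open Finset Filter Topology

namespace Pool.Agent.Results.MP_69be96_nt.ReducedResidueGapTail

/-- the mean gap `q / φ(q)` between consecutive integers coprime to `q` -/
noncomputable def meanGap (q : ℕ) : ℝ := (q : ℝ) / q.totient

/-- the proportion, among the `φ(q)` reduced residues `a < q`, of those followed by a gap longer
than `h`: none of `a + 1, …, a + h` is coprime to `q` -/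
noncomputable def gapTail (q h : ℕ) : ℝ :=
  (((range q).filter (fun a => Nat.Coprime a q ∧ ∀ j ∈ Icc 1 h, ¬ Nat.Coprime (a + j) q)).card : ℝ) /
    q.totient

theorem lam_eq (q h : ℕ) : (h : ℝ) * ((q.totient : ℝ) / q) = h / meanGap q := by
  unfold meanGap
  rw [div_div_eq_mul_div, mul_div_assoc]

theorem result :
    -- (1) Cramér's exponential law is a lower bound for every modulus, in a very long range
    (∀ ε : ℝ, 0 < ε → ∃ K : ℕ, 1 ≤ K ∧ ∀ q h : ℕ, 1 ≤ q →
      (K : ℝ) ≤ h / meanGap q → h / meanGap q ≤ Real.exp (meanGap q / K) →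
      Real.exp (-((1 + ε) * (h / meanGap q))) ≤ gapTail q h) ∧
    -- (2) and an upper bound for every modulus, up to small powers of the mean gap
    (∀ ε : ℝ, 0 < ε → ∃ K : ℕ, 1 ≤ K ∧ ∀ q h : ℕ, 1 ≤ q →
      (K : ℝ) ≤ h / meanGap q → (h / meanGap q) ^ K ≤ meanGap q →
      gapTail q h ≤ Real.exp (-((1 - ε) * (h / meanGap q)))) ∧
    -- (3) the range in (2) is the right one: it fails beyond every power, for every primorial
    (∀ θ : ℝ, 0 < θ → ∃ c < 1, ∃ K z₀ : ℕ, 1 ≤ K ∧ ∀ z h : ℕ, z₀ ≤ z →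
      meanGap (primorial z) ^ θ ≤ h / meanGap (primorial z) →
      h / meanGap (primorial z) ≤ Real.exp (meanGap (primorial z) / K) →
      Real.exp (-(c * (h / meanGap (primorial z)))) ≤ gapTail (primorial z) h) := by
  refine ⟨fun ε hε => ?_, fun ε hε => ?_, fun θ hθ => ?_⟩
  · obtain ⟨K, hK, h⟩ := Pool.Agent.H11.Avg.gap_lower (min ε 1) (lt_min hε one_pos) (min_le_right _ _)
    refine ⟨K, hK, fun q n hq h1 h2 => ?_⟩
    have h3 := h q n (by omega) (by rw [lam_eq]; exact h1) (by rw [lam_eq]; exact h2)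
    rw [lam_eq] at h3
    refine le_trans (Real.exp_le_exp.2 ?_) h3
    have h4 : (0 : ℝ) ≤ n / meanGap q := le_trans (Nat.cast_nonneg _) h1
    have h5 := mul_le_mul_of_nonneg_right (min_le_left ε 1) h4
    linarith
  · obtain ⟨K, hK, h⟩ := Pool.Agent.H11.Avg.both (min ε 1) (lt_min hε one_pos) (min_le_right _ _)
    refine ⟨K, hK, fun q n hq h1 h2 => ?_⟩
    have h3 := (h q n (by omega) (by rw [lam_eq]; exact h1) (by rw [lam_eq]; exact h2)).2.2
    rw [lam_eq] at h3
    refine le_trans h3 (Real.exp_le_exp.2 ?_)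
    have h4 : (0 : ℝ) ≤ n / meanGap q := le_trans (Nat.cast_nonneg _) h1
    have h5 := mul_le_mul_of_nonneg_right (min_le_left ε 1) h4
    linarith
  · exact Pool.Agent.H11.Avg.gap_prim θ hθ

end Pool.Agent.Results.MP_69be96_nt.ReducedResidueGapTail
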