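import Pool.Agent.H11.Moment

set_option autoImplicit false

/-! # Stretched exponential bounds, uniform in the modulus, for the gaps between reduced residues -/

open Finset

namespace Pool.Agent.Results.MP_69be96_nt.UniformResidueGapTail

/-- the mean gap `q / φ(q)` between consecutive integers coprime to `q` -/
noncomputable def meanGap (q : ℕ) : ℝ := (q : ℝ) / q.totient

/-- the gap after `a`: the distance from `a` to the next integer coprime to `q` -/
noncomputable def gap (q a : ℕ) : ℕ := sInf {j : ℕ | 1 ≤ j ∧ Nat.Coprime (a + j) q}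

/-- the reduced residues modulo `q` -/
def residues (q : ℕ) : Finset ℕ := (range q).filter (fun a => Nat.Coprime a q)

/-- **Gaps between reduced residues**: stretched exponential tail with every exponent `β < 1/2`,
uniformly for all moduli, and the corresponding exponential moments. -/
theorem result (β : ℝ) (hβ0 : 0 < β) (hβ : β < 1 / 2) :
    (∃ c C : ℝ, 0 < c ∧ ∀ q h : ℕ, 1 ≤ q →
      (((residues q).filter (fun a => h < gap q a)).card : ℝ) ≤
        C * Real.exp (-(c * min (h / meanGap q) ((h : ℝ) ^ β))) * q.totient) ∧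
    (∃ C : ℝ, ∀ q : ℕ, 1 ≤ q →
      ∑ a ∈ residues q, Real.exp ((gap q a / meanGap q) ^ β) ≤ C * q.totient) := by
  constructor
  · obtain ⟨c, C, hc, _, h⟩ := Pool.Agent.H11.Avg.tail β hβ0 hβ
    refine ⟨c, C, hc, fun q n hq => ?_⟩
    have hq0 : q ≠ 0 := by omega
    have hφ : (0 : ℝ) < q.totient := by exact_mod_cast Nat.totient_pos.2 (by omega : 0 < q)
    have h1 := h q n hq0
    have e1 : (n : ℝ) * ((q.totient : ℝ) / q) = n / meanGap q := by
      unfold meanGap
      rw [div_div_eq_mul_div, mul_div_assoc]
    have e2 : (residues q).filter (fun a => n < gap q a) =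
        (range q).filter (fun a => Nat.Coprime a q ∧ ∀ j ∈ Icc 1 n, ¬ Nat.Coprime (a + j) q) := by
      unfold residues
      rw [filter_filter]
      exact filter_congr fun a _ => and_congr_right fun _ => Pool.Agent.H11.Avg.lt_gap q a n hq0
    rw [e1] at h1
    unfold Pool.Agent.H11.Avg.gapTail at h1
    rw [div_le_iff₀ hφ] at h1
    rw [e2]
    exact h1
  · obtain ⟨C, h⟩ := Pool.Agent.H11.Avg.moment β hβ0 hβ
    refine ⟨C, fun q hq => ?_⟩
    refine le_trans (le_of_eq ?_) (h q (by omega))
    refine sum_congr rfl fun a _ => ?_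
    unfold meanGap
    rw [div_div_eq_mul_div, mul_div_assoc]
    rfl

end Pool.Agent.Results.MP_69be96_nt.UniformResidueGapTail
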